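import Mathlib
import Pool.Agent.Results.MP_3d4caa_nt.ExactValue

/-!
# The height expansion ratio: a uniform inequality, and values which are attained

Let `N, d ≥ 2`. Every dominant rational self-map `f` of degree `d` of projective `N`-space satisfies
`h(P) ≤ d ^ (N - 1) h(f(P)) + C` on a nonempty open set. For all exponents `a_1, …, a_{N-1}` between
`1` and `d`, one of them equal to `d`, the polynomial automorphism
`(x_1, …, x_N) ↦ (x_1 + 1, x_2 + x_1 ^ a_1, …, x_N + x_{N-1} ^ a_{N-1})` of affine space has the height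
expansion ratio `1 / (a_1 ⋯ a_{N-1})`. In particular the infimum `1 / d ^ (N - 1)` is attained.
-/

set_option autoImplicit false

namespace Pool.Agent.Results.MP_3d4caa_nt.ValuesAttained

open Pool.Agent.Helper259.AbsHt
open ExactValue (PSpace ht IsZariskiOpen RatMap muBar eval_smul ht_mk eval_mk exists_point value_mk
  gcd_one ae)

/-! ### From inequalities between heights to the ratio -/

lemma le_mu_of {n d : ℕ} (f : RatMap n d) {U : Set (PSpace n)} (hU : IsZariskiOpen U)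
    (hne : U.Nonempty) {D C : ℝ} (hD : 0 < D)
    (h : ∀ P ∈ U, ∀ hP : f.DefinedAt P, ht P ≤ D * ht (f.value P hP) + C) :
    ((1 / D : ℝ) : EReal) ≤ f.mu := by
  refine le_trans ?_ (le_iSup_of_le U (le_iSup_of_le hU (le_iSup_of_le hne le_rfl)))
  refine le_of_forall_lt fun b hb => ?_
  obtain ⟨a, hba, ha⟩ := EReal.lt_iff_exists_real_btwn.mp hb
  rw [EReal.coe_lt_coe_iff] at ha
  refine hba.trans_le ?_
  apply Filter.le_liminf_of_le
  · isBoundedDefault
  rw [Filter.eventually_comap]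
  have hpos : 0 < 1 / D - a := by linarith
  filter_upwards [Filter.eventually_ge_atTop (max 1 (C / D / (1 / D - a)))] with s hs P hPs
  rw [EReal.coe_le_coe_iff]
  have hs1 : 1 ≤ ht P.1 := by rw [hPs]; exact (le_max_left _ _).trans hs
  have hs2 : C / D / (1 / D - a) ≤ ht P.1 := by
    rw [hPs]; exact (le_max_right _ _).trans hs
  have h1 := h P.1 P.2.1 P.2.2
  rw [div_le_iff₀ hpos] at hs2
  rw [le_div_iff₀ (by linarith)]
  have h4 : (ht P.1 - C) / D ≤ ht (f.value P.1 P.2.2) := by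
    rw [div_le_iff₀ hD]; linarith
  have h5 : (ht P.1 - C) / D = ht P.1 * (1 / D) - C / D := by ring
  rw [h5] at h4
  nlinarith

lemma mu_le_of {n d : ℕ} (f : RatMap n d) {D : ℝ} (hD : 0 < D)
    (h : ∀ U : Set (PSpace n), IsZariskiOpen U → U.Nonempty → ∃ C : ℝ, ∀ B : ℝ,
      ∃ P ∈ U, ∃ hP : f.DefinedAt P, B ≤ ht P ∧ D * ht (f.value P hP) ≤ ht P + C) :
    f.mu ≤ ((1 / D : ℝ) : EReal) := by
  refine iSup_le fun U => iSup_le fun hU => iSup_le fun hne => ?_
  obtain ⟨C, hC⟩ := h U hU hne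
  refine le_of_forall_gt_imp_ge_of_dense fun a ha => ?_
  obtain ⟨b, hb, hba⟩ := EReal.lt_iff_exists_real_btwn.mp ha
  rw [EReal.coe_lt_coe_iff] at hb
  refine le_trans ?_ hba.le
  apply Filter.liminf_le_of_frequently_le'
  rw [Filter.frequently_comap, Filter.frequently_atTop]
  intro K
  have hbD : 0 < b * D - 1 := by
    rw [div_lt_iff₀ hD] at hb; linarith
  obtain ⟨P, hPU, hP, h1, h2⟩ := hC (max (max K 1) (C / (b * D - 1)))
  have hK : K ≤ ht P := (le_max_left _ _).trans ((le_max_left _ _).trans h1)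
  have h1' : 1 ≤ ht P := (le_max_right _ _).trans ((le_max_left _ _).trans h1)
  have h3 : C / (b * D - 1) ≤ ht P := (le_max_right _ _).trans h1
  rw [div_le_iff₀ hbD] at h3
  refine ⟨ht P, hK, ⟨P, hPU, hP⟩, rfl, ?_⟩
  rw [EReal.coe_le_coe_iff, div_le_iff₀ (by linarith)]
  have h4 : D * ht (f.value P hP) ≤ D * (b * ht P) := by nlinarith
  exact le_of_mul_le_mul_left h4 hD

/-! ### The uniform inequality -/

lemma uniform (n : ℕ) {d : ℕ} (hd : 0 < d) (f : RatMap (n + 1) d) (hf : f.IsDominant) :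
    ∃ U : Set (PSpace (n + 1)), IsZariskiOpen U ∧ U.Nonempty ∧ ∃ C : ℝ, ∀ P ∈ U,
      ∀ hP : f.DefinedAt P, ht P ≤ (d : ℝ) ^ n * ht (f.value P hP) + C := by
  obtain ⟨r, c, hc0, hchom, C, hC⟩ := Pool.Agent.Helper259.HtLower.lower n hd f.form f.homogeneous
  set G : MvPolynomial (Fin (n + 1 + 1)) Qbar := MvPolynomial.aeval f.form c with hG
  have hGhom : G.IsHomogeneous (d * r) := hchom.aeval _ f.homogeneous
  have hGeval : ∀ x, MvPolynomial.eval x G =
      MvPolynomial.eval (fun i => MvPolynomial.eval x (f.form i)) c := by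
    intro x
    have := MvPolynomial.eval₂_comp_left (MvPolynomial.eval x)
      (algebraMap Qbar (MvPolynomial (Fin (n + 1 + 1)) Qbar)) f.form c
    have h2 : (MvPolynomial.eval x).comp
        (algebraMap Qbar (MvPolynomial (Fin (n + 1 + 1)) Qbar)) = RingHom.id Qbar := by
      ext a; simp [MvPolynomial.algebraMap_eq]
    rw [h2] at this
    exact this
  set U : Set (PSpace (n + 1)) := {P | ∃ F ∈ ({G} : Set (MvPolynomial (Fin (n + 1 + 1)) Qbar)),
    MvPolynomial.eval P.rep F ≠ 0} with hU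
  have hUopen : IsZariskiOpen U := ⟨{G}, by
    rintro F rfl; exact ⟨_, hGhom⟩, rfl⟩
  have hUne : U.Nonempty := by
    have hU' : IsZariskiOpen {P : PSpace (n + 1) | ∃ F ∈
        ({c} : Set (MvPolynomial (Fin (n + 1 + 1)) Qbar)), MvPolynomial.eval P.rep F ≠ 0} :=
      ⟨{c}, by rintro F rfl; exact ⟨_, hchom⟩, rfl⟩
    obtain ⟨x, hx0, hx⟩ := exists_point c hc0
    have hx0' : x ≠ 0 := by rintro rfl; exact hx0 rfl
    obtain ⟨P, hP, F, hF, hPF⟩ := hf _ hU' ⟨Projectivization.mk Qbar x hx0', c, rfl,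
      (eval_mk hchom x hx0').mpr hx⟩
    rw [Set.mem_singleton_iff] at hF
    subst hF
    refine ⟨P, G, rfl, ?_⟩
    rw [hGeval]
    exact (eval_mk hchom _ hP).mp hPF
  refine ⟨U, hUopen, hUne, C, fun P hPU hP => ?_⟩
  obtain ⟨F, hF, hPF⟩ := hPU
  rw [Set.mem_singleton_iff] at hF
  subst hF
  rw [hGeval] at hPF
  have h1 := hC P.rep hPF
  have h2 : ht (f.value P hP) = absLogHeight (fun i => MvPolynomial.eval P.rep (f.form i)) :=
    ht_mk _ _
  rw [← h2] at h1
  have h3 : absLogHeight P.rep = ht P := rfl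
  rw [h3] at h1
  linarith

/-! ### The maps with prescribed exponents -/

/-- solution of `x (j + 1) + x j ^ a j = y (j + 1)`, `x 0 = 1` -/
def pre {R : Type*} [CommRing R] (a : ℕ → ℕ) (y : ℕ → R) : ℕ → R
  | 0 => 1
  | (j + 1) => y (j + 1) - pre a y j ^ a j

lemma map_pre {R S : Type*} [CommRing R] [CommRing S] (φ : R →+* S) (a : ℕ → ℕ) (y : ℕ → R) (j : ℕ) :
    φ (pre a y j) = pre a (fun i => φ (y i)) j := by
  induction j with
  | zero => simp [pre]
  | succ j ih => simp only [pre, map_sub, map_pow, ih]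

/-- the forms `X_0 ^ d` and `X_{j+1} X_0 ^ (d - 1) + X_j ^ a_j X_0 ^ (d - a_j)`, `0 ≤ j ≤ n` -/
noncomputable def triForm (n d : ℕ) (a : ℕ → ℕ) :
    Fin (n + 1 + 1) → MvPolynomial (Fin (n + 1 + 1)) Qbar :=
  Fin.cons (MvPolynomial.X 0 ^ d) (fun j : Fin (n + 1) =>
    MvPolynomial.X j.succ * MvPolynomial.X 0 ^ (d - 1) +
      MvPolynomial.X j.castSucc ^ a j * MvPolynomial.X 0 ^ (d - a j))

lemma tri_homog (n : ℕ) {d : ℕ} (hd : 2 ≤ d) {a : ℕ → ℕ} (ha : ∀ j ≤ n, 1 ≤ a j ∧ a j ≤ d)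
    (i : Fin (n + 1 + 1)) : (triForm n d a i).IsHomogeneous d := by
  refine Fin.cases ?_ (fun j => ?_) i
  · exact MvPolynomial.isHomogeneous_X_pow _ _
  · rw [triForm, Fin.cons_succ]
    refine MvPolynomial.IsHomogeneous.add ?_ ?_
    · have := (MvPolynomial.isHomogeneous_X Qbar j.succ).mul
        (MvPolynomial.isHomogeneous_X_pow (R := Qbar) (0 : Fin (n + 1 + 1)) (d - 1))
      rwa [show 1 + (d - 1) = d by omega] at this
    · have := (MvPolynomial.isHomogeneous_X_pow (R := Qbar) j.castSucc (a j)).mul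
        (MvPolynomial.isHomogeneous_X_pow (R := Qbar) (0 : Fin (n + 1 + 1)) (d - a j))
      have hj := ha j (by omega)
      rwa [show a j + (d - a j) = d by omega] at this

lemma tri_coprime {n : ℕ} {d : ℕ} (hd : 2 ≤ d) {a : ℕ → ℕ} {k : ℕ} (hk1 : 1 ≤ k) (hkn : k ≤ n) (hk : a k = d)
    (G : MvPolynomial (Fin (n + 1 + 1)) Qbar) (hG : ∀ i, G ∣ triForm n d a i) : IsUnit G := by
  have h0 : G ∣ MvPolynomial.X 0 ^ d := hG 0
  have hprime : Prime (MvPolynomial.X 0 : MvPolynomial (Fin (n + 1 + 1)) Qbar) :=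
    MvPolynomial.X_prime
  obtain ⟨r, hr, hass⟩ := (dvd_prime_pow hprime d).mp h0
  rcases Nat.eq_zero_or_pos r with rfl | hrpos
  · rw [pow_zero] at hass
    exact hass.isUnit_iff.mpr isUnit_one
  · exfalso
    set kk : Fin (n + 1) := ⟨k, by omega⟩ with hkk
    have h1 : (MvPolynomial.X 0 : MvPolynomial (Fin (n + 1 + 1)) Qbar) ∣ triForm n d a kk.succ :=
      ((dvd_pow_self _ hrpos.ne').trans hass.symm.dvd).trans (hG _)
    obtain ⟨q, hq⟩ := h1
    have h2 := congrArg (MvPolynomial.eval (fun i : Fin (n + 1 + 1) =>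
      if i = kk.castSucc then (1 : Qbar) else 0)) hq
    rw [triForm, Fin.cons_succ, map_add, map_mul, map_mul, map_mul, map_pow, map_pow, map_pow] at h2
    simp only [MvPolynomial.eval_X] at h2
    have h3 : (0 : Fin (n + 1 + 1)) ≠ kk.castSucc := by
      intro h
      have := congrArg Fin.val h
      simp [hkk] at this
      omega
    have h4 : a (kk : ℕ) = d := hk
    rw [if_neg h3, zero_mul, h4, Nat.sub_self, pow_zero, mul_one, zero_pow (by omega : d - 1 ≠ 0),
      mul_zero, zero_add] at h2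
    simp at h2

/-- the map with exponents `a` -/
noncomputable def triMap {n d : ℕ} (hd : 2 ≤ d) {a : ℕ → ℕ} (ha : ∀ j ≤ n, 1 ≤ a j ∧ a j ≤ d)
    {k : ℕ} (hk1 : 1 ≤ k) (hkn : k ≤ n) (hk : a k = d) : RatMap (n + 1) d where
  form := triForm n d a
  homogeneous := tri_homog n hd ha
  coprime := tri_coprime hd hk1 hkn hk

lemma eval_tri (n d : ℕ) {a : ℕ → ℕ} (y : ℕ → Qbar) :
    (fun i => MvPolynomial.eval (fun i : Fin (n + 1 + 1) => pre a y i) (triForm n d a i)) =
      fun i : Fin (n + 1 + 1) => if (i : ℕ) = 0 then 1 else y i := by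
  funext i
  refine Fin.cases ?_ (fun j => ?_) i
  · simp [triForm, pre]
  · rw [triForm, Fin.cons_succ]
    simp [pre]

/-- every vector with first coordinate one is of the form `pre` -/
lemma exists_pre {n : ℕ} (a : ℕ → ℕ) (x : Fin (n + 1 + 1) → Qbar) (hx : x 0 = 1) :
    ∃ u : ℕ → Qbar, (fun i : Fin (n + 1 + 1) => pre a u i) = x := by
  let x0 : ℕ → Qbar := fun j => if h : j < n + 1 + 1 then x ⟨j, h⟩ else 0
  have hx00 : x0 0 = 1 := by
    simp only [x0]
    rw [dif_pos (by omega)]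
    exact hx
  let u : ℕ → Qbar := fun j => x0 j + x0 (j - 1) ^ a (j - 1)
  have hu : ∀ j, pre a u j = x0 j := by
    intro j
    induction j with
    | zero => rw [pre, hx00]
    | succ j ih => rw [pre, ih]; simp [u]
  refine ⟨u, ?_⟩
  funext i
  rw [hu]
  simp only [x0, Fin.is_lt, dite_true, Fin.eta]

lemma tri_dominant {n d : ℕ} (hd : 2 ≤ d) {a : ℕ → ℕ} (ha : ∀ j ≤ n, 1 ≤ a j ∧ a j ≤ d)
    {k : ℕ} (hk1 : 1 ≤ k) (hkn : k ≤ n) (hk : a k = d) : (triMap hd ha hk1 hkn hk).IsDominant := by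
  rintro U ⟨T, hT, rfl⟩ ⟨P0, F, hF, hPF⟩
  obtain ⟨e, he⟩ := hT F hF
  have hF0 : F ≠ 0 := by rintro rfl; exact hPF (map_zero _)
  obtain ⟨x, hx0, hx⟩ := exists_point F hF0
  let y : ℕ → Qbar := fun j => if h : j < n + 1 + 1 then (x 0)⁻¹ * x ⟨j, h⟩ else 0
  have hy : (fun i : Fin (n + 1 + 1) => if (i : ℕ) = 0 then 1 else y i) = (x 0)⁻¹ • x := by
    funext i
    simp only [y, Pi.smul_apply, smul_eq_mul, Fin.is_lt, dite_true, Fin.eta]
    split_ifs with h
    · have : i = 0 := Fin.ext h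
      rw [this, inv_mul_cancel₀ hx0]
    · rfl
  have hp0 : (fun i : Fin (n + 1 + 1) => pre a y i) ≠ 0 := by
    intro h
    have := congrFun h 0
    simp [pre] at this
  have hv0 : (fun i => MvPolynomial.eval (fun i : Fin (n + 1 + 1) => pre a y i)
      ((triMap hd ha hk1 hkn hk).form i)) ≠ 0 := by
    intro h
    have h2 := congrFun h 0
    have h3 := congrFun (eval_tri n d (a := a) y) 0
    rw [show (triMap hd ha hk1 hkn hk).form = triForm n d a from rfl] at h2
    rw [h3] at h2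
    simp at h2
  obtain ⟨h, hval⟩ := value_mk (triMap hd ha hk1 hkn hk) _ hp0 hv0
  refine ⟨_, h, F, hF, ?_⟩
  rw [hval, eval_mk he]
  have h4 : (fun i => MvPolynomial.eval (fun i : Fin (n + 1 + 1) => pre a y i)
      ((triMap hd ha hk1 hkn hk).form i)) = (x 0)⁻¹ • x := by
    rw [← hy]; exact eval_tri n d y
  rw [h4, eval_smul he]
  exact mul_ne_zero (pow_ne_zero _ (inv_ne_zero hx0)) hx

/-- the product `a_1 ⋯ a_j` -/
def pr (a : ℕ → ℕ) (j : ℕ) : ℕ := ∏ i ∈ Finset.Icc 1 j, a i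

lemma pr_zero (a : ℕ → ℕ) : pr a 0 = 1 := by simp [pr]

lemma pr_succ (a : ℕ → ℕ) (j : ℕ) : pr a (j + 1) = pr a j * a (j + 1) := by
  rw [pr, Finset.prod_Icc_succ_top (by omega), ← pr]

lemma pr_pos {a : ℕ → ℕ} {j : ℕ} (ha : ∀ i ≤ j, 1 ≤ a i) : 1 ≤ pr a j := by
  unfold pr
  exact Nat.succ_le_of_lt (Finset.prod_pos fun i hi => ha i (Finset.mem_Icc.mp hi).2)

lemma pr_mono {a : ℕ → ℕ} {j n : ℕ} (hjn : j ≤ n) (ha : ∀ i ≤ n, 1 ≤ a i) : pr a j ≤ pr a n := by
  unfold pr
  refine Finset.prod_le_prod_of_subset_of_one_le' (Finset.Icc_subset_Icc_right hjn) ?_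
  intro i hi _
  exact ha i (Finset.mem_Icc.mp hi).2

/-! ### The inverse map -/

/-- the `j`-th variable, `0` if there is none -/
noncomputable def Yv (n j : ℕ) : MvPolynomial (Fin (n + 1 + 1)) Qbar :=
  if h : j < n + 1 + 1 then MvPolynomial.X ⟨j, h⟩ else 0

lemma Yv_homog (n j : ℕ) : (Yv n j).IsHomogeneous 1 := by
  unfold Yv
  split_ifs
  · exact MvPolynomial.isHomogeneous_X _ _
  · exact MvPolynomial.isHomogeneous_zero _ _ _

/-- the forms of the inverse map -/
noncomputable def invQ (n : ℕ) (a : ℕ → ℕ) : ℕ → MvPolynomial (Fin (n + 1 + 1)) Qbar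
  | 0 => Yv n 1 - MvPolynomial.X 0
  | (j + 1) => Yv n (j + 2) * MvPolynomial.X 0 ^ (pr a (j + 1) - 1) - invQ n a j ^ a (j + 1)

lemma invQ_homog (n : ℕ) {a : ℕ → ℕ} (ha : ∀ i ≤ n, 1 ≤ a i) (j : ℕ) (hj : j ≤ n) :
    (invQ n a j).IsHomogeneous (pr a j) := by
  induction j with
  | zero =>
    rw [invQ, pr_zero]
    exact (Yv_homog n 1).sub (MvPolynomial.isHomogeneous_X _ _)
  | succ j ih =>
    rw [invQ]
    have hp : 1 ≤ pr a (j + 1) := pr_pos fun i hi => ha i (by omega)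
    refine MvPolynomial.IsHomogeneous.sub ?_ ?_
    · have := (Yv_homog n (j + 2)).mul
        (MvPolynomial.isHomogeneous_X_pow (R := Qbar) (0 : Fin (n + 1 + 1)) (pr a (j + 1) - 1))
      rwa [show 1 + (pr a (j + 1) - 1) = pr a (j + 1) by omega] at this
    · have := (ih (by omega)).pow (a (j + 1))
      rwa [← pr_succ] at this

lemma eval_invQ (n : ℕ) {a : ℕ → ℕ} (y : ℕ → Qbar) (j : ℕ) (hj : j ≤ n) :
    MvPolynomial.eval (fun i : Fin (n + 1 + 1) => if (i : ℕ) = 0 then 1 else y i) (invQ n a j) =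
      pre a y (j + 1) := by
  induction j with
  | zero =>
    rw [invQ, Yv, dif_pos (by omega)]
    simp [pre]
  | succ j ih =>
    rw [invQ, Yv, dif_pos (by omega), map_sub, map_mul, map_pow, map_pow, ih (by omega)]
    rw [MvPolynomial.eval_X, MvPolynomial.eval_X]
    simp only [Fin.coe_ofNat_eq_mod, Nat.zero_mod, if_true, one_pow, mul_one]
    rw [if_neg (by omega)]
    rfl

/-- all the forms of the inverse map, of the same degree -/
noncomputable def invF (n : ℕ) (a : ℕ → ℕ) : Fin (n + 1 + 1) → MvPolynomial (Fin (n + 1 + 1)) Qbar :=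
  Fin.cons (MvPolynomial.X 0 ^ pr a n) (fun j : Fin (n + 1) =>
    invQ n a j * MvPolynomial.X 0 ^ (pr a n - pr a j))

lemma invF_homog (n : ℕ) {a : ℕ → ℕ} (ha : ∀ i ≤ n, 1 ≤ a i) (i : Fin (n + 1 + 1)) :
    (invF n a i).IsHomogeneous (pr a n) := by
  refine Fin.cases ?_ (fun j => ?_) i
  · exact MvPolynomial.isHomogeneous_X_pow _ _
  · rw [invF, Fin.cons_succ]
    have hj : (j : ℕ) ≤ n := by omega
    have := (invQ_homog n ha j hj).mul
      (MvPolynomial.isHomogeneous_X_pow (R := Qbar) (0 : Fin (n + 1 + 1)) (pr a n - pr a j))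
    have h1 := pr_mono hj ha
    rwa [show pr a j + (pr a n - pr a j) = pr a n by omega] at this

lemma eval_invF (n : ℕ) {a : ℕ → ℕ} (y : ℕ → Qbar) :
    (fun i => MvPolynomial.eval (fun i : Fin (n + 1 + 1) => if (i : ℕ) = 0 then 1 else y i)
      (invF n a i)) = fun i : Fin (n + 1 + 1) => pre a y i := by
  funext i
  refine Fin.cases ?_ (fun j => ?_) i
  · simp [invF, pre]
  · rw [invF, Fin.cons_succ, map_mul, eval_invQ n y j (by omega), map_pow, MvPolynomial.eval_X]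
    simp

lemma tri_lower {n d : ℕ} (hd : 2 ≤ d) {a : ℕ → ℕ} (ha : ∀ j ≤ n, 1 ≤ a j ∧ a j ≤ d)
    {k : ℕ} (hk1 : 1 ≤ k) (hkn : k ≤ n) (hk : a k = d) :
    ∃ C : ℝ, ∀ P : PSpace (n + 1), P.rep 0 ≠ 0 → ∀ hP : (triMap hd ha hk1 hkn hk).DefinedAt P,
      ht P ≤ (pr a n : ℝ) * ht ((triMap hd ha hk1 hkn hk).value P hP) + C := by
  obtain ⟨C, hC⟩ := absLogHeight_eval (pr a n) (invF n a) (invF_homog n fun i hi => (ha i hi).1)
  refine ⟨C, fun P hP0 hP => ?_⟩
  set c : Qbar := (P.rep 0)⁻¹ with hc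
  have hc0 : c ≠ 0 := inv_ne_zero hP0
  have hx1 : (c • P.rep) 0 = 1 := by
    rw [Pi.smul_apply, smul_eq_mul, hc, inv_mul_cancel₀ hP0]
  obtain ⟨u, hu⟩ := exists_pre a (c • P.rep) hx1
  have e1 : ht P = absLogHeight (fun i : Fin (n + 1 + 1) => pre a u i) := by
    rw [hu, absLogHeight_smul _ hc0]
    rfl
  have e2 : ht ((triMap hd ha hk1 hkn hk).value P hP) =
      absLogHeight (fun i : Fin (n + 1 + 1) => if (i : ℕ) = 0 then 1 else u i) := by
    have h1 : ht ((triMap hd ha hk1 hkn hk).value P hP) =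
        absLogHeight (fun i => MvPolynomial.eval P.rep (triForm n d a i)) := ht_mk _ _
    rw [h1, ← eval_tri n d (a := a) u, hu]
    have h2 : (fun i => MvPolynomial.eval (c • P.rep) (triForm n d a i)) =
        c ^ d • (fun i => MvPolynomial.eval P.rep (triForm n d a i)) := by
      funext i
      rw [eval_smul (tri_homog n hd ha i)]
      rfl
    rw [h2, absLogHeight_smul _ (pow_ne_zero _ hc0)]
  rw [e1, e2, ← eval_invF n (a := a) u]
  have := hC (fun i : Fin (n + 1 + 1) => if (i : ℕ) = 0 then 1 else u i)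
  linarith

/-! ### Points at which the inequality is sharp -/

/-- growth of the coordinates -/
lemma growth {a : ℕ → ℕ} (z : ℕ → ℤ) (j : ℕ) (ha : ∀ i ≤ j, 1 ≤ a i) :
    ∃ c : ℝ, 0 < c ∧ ∀ᶠ t : ℕ in Filter.atTop, c * (t : ℝ) ^ (pr a j) ≤
      |((pre a (fun i => if i = 1 then (t : ℤ) else z i) (j + 1) : ℤ) : ℝ)| := by
  induction j with
  | zero =>
    refine ⟨1 / 2, by norm_num, ?_⟩
    filter_upwards [Filter.eventually_ge_atTop 2] with t ht
    have ht' : (2 : ℝ) ≤ t := by exact_mod_cast ht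
    simp only [pre, zero_add, if_true, pr_zero, one_pow, pow_one]
    push_cast
    rw [abs_of_nonneg (by linarith)]
    linarith
  | succ j ih =>
    obtain ⟨c, hc, h⟩ := ih fun i hi => ha i (by omega)
    have haj : 1 ≤ a (j + 1) := ha _ le_rfl
    refine ⟨c ^ a (j + 1) / 2, by positivity, ?_⟩
    have hne : pr a (j + 1) ≠ 0 := by
      have := pr_pos ha
      omega
    have htend : Filter.Tendsto (fun t : ℕ => c ^ a (j + 1) / 2 * (t : ℝ) ^ (pr a (j + 1)))
        Filter.atTop Filter.atTop :=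
      Filter.Tendsto.const_mul_atTop (by positivity)
        ((Filter.tendsto_pow_atTop hne).comp tendsto_natCast_atTop_atTop)
    filter_upwards [h, htend.eventually_ge_atTop |((z (j + 2) : ℤ) : ℝ)|] with t h1 h2
    have h3 : pre a (fun i => if i = 1 then (t : ℤ) else z i) (j + 1 + 1) =
        z (j + 2) - pre a (fun i => if i = 1 then (t : ℤ) else z i) (j + 1) ^ a (j + 1) := by
      rw [pre, if_neg (by omega)]
    rw [h3]
    push_cast
    set X : ℝ := ((pre a (fun i => if i = 1 then (t : ℤ) else z i) (j + 1) : ℤ) : ℝ) with hX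
    have h4 : (c * (t : ℝ) ^ (pr a j)) ^ a (j + 1) ≤ |X| ^ a (j + 1) :=
      pow_le_pow_left₀ (by positivity) h1 _
    rw [mul_pow, ← pow_mul, ← pr_succ] at h4
    have h5 : |X| ^ a (j + 1) - |((z (j + 2) : ℤ) : ℝ)| ≤ |((z (j + 2) : ℤ) : ℝ) - X ^ a (j + 1)| := by
      rw [← abs_pow]
      have := abs_sub_abs_le_abs_sub (X ^ a (j + 1)) ((z (j + 2) : ℤ) : ℝ)
      rwa [abs_sub_comm] at this
    linarith

/-- the family of points avoids a given hypersurface, for suitable integers `z` -/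
lemma avoid {n : ℕ} (a : ℕ → ℕ) (F : MvPolynomial (Fin (n + 1 + 1)) Qbar) {e : ℕ}
    (he : F.IsHomogeneous e) (hF : F ≠ 0) :
    ∃ z : ℕ → ℤ, ∀ᶠ t : ℕ in Filter.atTop, MvPolynomial.eval (fun i : Fin (n + 1 + 1) =>
      ((pre a (fun i => if i = 1 then (t : ℤ) else z i) i : ℤ) : Qbar)) F ≠ 0 := by
  classical
  obtain ⟨x, hx0, hx⟩ := exists_point F hF
  obtain ⟨u, hux⟩ := exists_pre a ((x 0)⁻¹ • x) (by
    rw [Pi.smul_apply, smul_eq_mul, inv_mul_cancel₀ hx0])
  set H : MvPolynomial ℕ Qbar :=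
    MvPolynomial.aeval (fun i : Fin (n + 1 + 1) => pre a (MvPolynomial.X : ℕ → _) i) F with hH
  have hHeval : ∀ v : ℕ → Qbar, MvPolynomial.eval v H =
      MvPolynomial.eval (fun i : Fin (n + 1 + 1) => pre a v i) F := by
    intro v
    rw [← ae, hH, MvPolynomial.comp_aeval_apply, ae]
    congr 2
    funext i
    have := map_pre (MvPolynomial.eval v) a (MvPolynomial.X : ℕ → MvPolynomial ℕ Qbar) i
    simpa using this
  have hH0 : H ≠ 0 := by
    intro h
    have h1 := hHeval u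
    rw [h, map_zero, hux, eval_smul he] at h1
    exact mul_ne_zero (pow_ne_zero _ (inv_ne_zero hx0)) hx h1.symm
  obtain ⟨z, hz⟩ : ∃ z : ℕ → ℤ, MvPolynomial.eval (fun i => (z i : Qbar)) H ≠ 0 := by
    by_contra hcon
    push Not at hcon
    apply hH0
    refine MvPolynomial.funext_set (fun _ => Set.range (fun a : ℤ => (a : Qbar)))
      (fun _ => Set.infinite_range_of_injective Int.cast_injective) fun v hv => ?_
    have hv' : ∀ i, ∃ a : ℤ, (a : Qbar) = v i := fun i => hv i (Set.mem_univ _)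
    choose z hz using hv'
    rw [map_zero, ← hcon z]
    congr 2
    funext i
    exact (hz i).symm
  refine ⟨z, ?_⟩
  set h : Polynomial Qbar := MvPolynomial.aeval (fun i : Fin (n + 1 + 1) =>
    pre a (fun j => if j = 1 then (Polynomial.X : Polynomial Qbar) else
      Polynomial.C ((z j : ℤ) : Qbar)) i) F with hh
  have hheval : ∀ v : Qbar, Polynomial.eval v h = MvPolynomial.eval (fun i : Fin (n + 1 + 1) =>
      pre a (fun j => if j = 1 then v else ((z j : ℤ) : Qbar)) i) F := by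
    intro v
    have h1 : Polynomial.eval v h = Polynomial.aeval v h := by
      rw [Polynomial.coe_aeval_eq_eval]
    rw [h1, hh, MvPolynomial.comp_aeval_apply, ae]
    congr 2
    funext i
    have h2 := map_pre (Polynomial.evalRingHom v) a (fun j => if j = 1 then
      (Polynomial.X : Polynomial Qbar) else Polynomial.C ((z j : ℤ) : Qbar)) i
    rw [Polynomial.coe_evalRingHom] at h2
    rw [Polynomial.coe_aeval_eq_eval, h2]
    congr 1
    funext j
    split_ifs <;> simp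
  have hh0 : h ≠ 0 := by
    intro h0
    have h1 := hheval (z 1 : Qbar)
    rw [h0, Polynomial.eval_zero] at h1
    rw [hHeval] at hz
    apply hz
    rw [h1]
    congr 2
    funext i
    congr 1
    funext j
    split_ifs with hj
    · rw [hj]
    · rfl
  have hfin : {t : ℕ | Polynomial.eval (t : Qbar) h = 0}.Finite := by
    have h1 : {t : ℕ | Polynomial.eval (t : Qbar) h = 0} ⊆
        (fun t : ℕ => (t : Qbar)) ⁻¹' (h.roots.toFinset : Set Qbar) := by
      intro t ht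
      simp only [Set.mem_preimage, Finset.mem_coe, Multiset.mem_toFinset]
      rw [Polynomial.mem_roots hh0]
      exact ht
    exact ((Finset.finite_toSet _).preimage (Nat.cast_injective.injOn)).subset h1
  have hev := hfin.eventually_cofinite_notMem
  rw [Nat.cofinite_eq_atTop] at hev
  filter_upwards [hev] with t ht
  rw [hheval] at ht
  have e1 : (fun i : Fin (n + 1 + 1) =>
      ((pre a (fun i => if i = 1 then (t : ℤ) else z i) i : ℤ) : Qbar)) =
      fun i : Fin (n + 1 + 1) =>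
        pre a (fun j => if j = 1 then (t : Qbar) else ((z j : ℤ) : Qbar)) i := by
    funext i
    have h2 := map_pre (Int.castRingHom Qbar) a (fun i => if i = 1 then (t : ℤ) else z i) i
    refine Eq.trans h2 ?_
    congr 1
    funext j
    split_ifs <;> simp
  rw [e1]
  exact ht

/-- the point of projective space with the affine coordinates `x 1, …, x n`, if `x 0 = 1` -/
def IsIntegralPoint {n : ℕ} (P : PSpace n) : Prop :=
  ∃ (x : Fin (n + 1) → ℤ) (hx : (fun i => ((x i : ℤ) : Qbar)) ≠ 0), x 0 = 1 ∧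
    P = Projectivization.mk Qbar (fun i => ((x i : ℤ) : Qbar)) hx

lemma tri_sharp {n d : ℕ} (hd : 2 ≤ d) {a : ℕ → ℕ} (ha : ∀ j ≤ n, 1 ≤ a j ∧ a j ≤ d)
    {k : ℕ} (hk1 : 1 ≤ k) (hkn : k ≤ n) (hk : a k = d) (U : Set (PSpace (n + 1)))
    (hU : IsZariskiOpen U) (hne : U.Nonempty) :
    ∃ C : ℝ, ∀ B : ℝ, ∃ P ∈ U, ∃ hP : (triMap hd ha hk1 hkn hk).DefinedAt P, IsIntegralPoint P ∧
      B ≤ ht P ∧ (pr a n : ℝ) * ht ((triMap hd ha hk1 hkn hk).value P hP) ≤ ht P + C := by
  obtain ⟨T, hT, rfl⟩ := hU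
  obtain ⟨P0, F, hF, hPF⟩ := hne
  obtain ⟨e, he⟩ := hT F hF
  have hF0 : F ≠ 0 := by rintro rfl; exact hPF (map_zero _)
  obtain ⟨z, hz⟩ := avoid a F he hF0
  obtain ⟨c, hc, hgrow⟩ := growth z n fun i hi => (ha i hi).1
  have hD : (0 : ℝ) < (pr a n : ℝ) := by
    have := pr_pos (a := a) (j := n) fun i hi => (ha i hi).1
    exact_mod_cast this
  refine ⟨-Real.log c, fun B => ?_⟩
  have hlog : Filter.Tendsto (fun t : ℕ => Real.log (t : ℝ)) Filter.atTop Filter.atTop :=
    Real.tendsto_log_atTop.comp tendsto_natCast_atTop_atTop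
  have e1 : ∀ᶠ t : ℕ in Filter.atTop, ∀ i : Fin (n + 1 + 1), |z i| ≤ (t : ℤ) := by
    rw [Filter.eventually_all]
    intro i
    filter_upwards [Filter.eventually_ge_atTop (z i).natAbs] with t ht
    rw [Int.abs_eq_natAbs]
    exact_mod_cast ht
  have e2 : ∀ᶠ t : ℕ in Filter.atTop, B ≤ (pr a n : ℝ) * Real.log t + Real.log c := by
    have h1 : Filter.Tendsto (fun t : ℕ => (pr a n : ℝ) * Real.log t + Real.log c)
        Filter.atTop Filter.atTop :=
      Filter.tendsto_atTop_add_const_right _ _ (hlog.const_mul_atTop hD)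
    exact h1.eventually_ge_atTop _
  obtain ⟨t, ht1, ht2, ht3, ht4, ht6⟩ :=
    (hz.and (hgrow.and (e1.and (e2.and (Filter.eventually_ge_atTop 1))))).exists
  -- the point
  set y : ℕ → ℤ := fun i => if i = 1 then (t : ℤ) else z i with hy
  set x : Fin (n + 1 + 1) → ℤ := fun i => pre a y i with hx
  have hx0 : x 0 = 1 := rfl
  have hxq : (fun i => ((x i : ℤ) : Qbar)) =
      fun i : Fin (n + 1 + 1) => pre a (fun j => ((y j : ℤ) : Qbar)) i := by
    funext i
    exact map_pre (Int.castRingHom Qbar) a y i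
  have hxne : (fun i => ((x i : ℤ) : Qbar)) ≠ 0 := by
    intro h
    have := congrFun h 0
    simp [hx0] at this
  set w : Fin (n + 1 + 1) → ℤ := fun i => if (i : ℕ) = 0 then 1 else y i with hw
  have hform : (fun i => MvPolynomial.eval (fun i => ((x i : ℤ) : Qbar))
      ((triMap hd ha hk1 hkn hk).form i)) = fun i => ((w i : ℤ) : Qbar) := by
    rw [hxq]
    have := eval_tri n d (a := a) (fun j => ((y j : ℤ) : Qbar))
    refine Eq.trans this ?_
    funext i
    simp only [hw]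
    split_ifs <;> simp
  have hw0 : w 0 = 1 := by simp [hw]
  have hwne : (fun i => MvPolynomial.eval (fun i => ((x i : ℤ) : Qbar))
      ((triMap hd ha hk1 hkn hk).form i)) ≠ 0 := by
    rw [hform]
    intro h
    have := congrFun h 0
    simp [hw0] at this
  obtain ⟨hdef, hval⟩ := value_mk (triMap hd ha hk1 hkn hk) _ hxne hwne
  set P : PSpace (n + 1) := Projectivization.mk Qbar _ hxne with hP
  have hPU : P ∈ {P : PSpace (n + 1) | ∃ F ∈ T, MvPolynomial.eval P.rep F ≠ 0} :=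
    ⟨F, hF, (eval_mk he _ hxne).mpr ht1⟩
  -- heights
  have hh1 : (pr a n : ℝ) * Real.log t + Real.log c ≤ ht P := by
    rw [hP, ht_mk, absLogHeight_int x (gcd_one x 0 hx0)]
    have ht0 : (0 : ℝ) < t := by exact_mod_cast ht6
    have h1 : Real.log (c * (t : ℝ) ^ (pr a n)) = (pr a n : ℝ) * Real.log t + Real.log c := by
      rw [Real.log_mul hc.ne' (by positivity), Real.log_pow]
      ring
    rw [← h1]
    apply Real.log_le_log (by positivity)
    refine ht2.trans ?_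
    have h2 : |x (Fin.last (n + 1))| ≤ ⨆ i, |x i| :=
      le_ciSup (f := fun i => |x i|) (Set.finite_range _).bddAbove _
    have h3 : (|x (Fin.last (n + 1))| : ℤ) = |pre a y (n + 1)| := rfl
    rw [h3] at h2
    exact_mod_cast h2
  have hh2 : ht ((triMap hd ha hk1 hkn hk).value P hdef) ≤ Real.log t := by
    have h0 : ht ((triMap hd ha hk1 hkn hk).value P hdef) =
        absLogHeight (fun i => ((w i : ℤ) : Qbar)) := by
      rw [hval, ht_mk]
      congr 1
    rw [h0, absLogHeight_int w (gcd_one w 0 hw0)]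
    have h1 : ⨆ i, |w i| ≤ (t : ℤ) := by
      apply ciSup_le
      intro i
      simp only [hw, hy]
      split_ifs
      · simpa using ht6
      · simp
      · exact ht3 i
    have h2 : 1 ≤ ⨆ i, |w i| := by
      have := le_ciSup (f := fun i => |w i|) (Set.finite_range _).bddAbove 0
      simpa [hw0] using this
    apply Real.log_le_log
    · exact_mod_cast (by omega : (0 : ℤ) < ⨆ i, |w i|)
    · exact_mod_cast h1
  refine ⟨P, hPU, hdef, ⟨x, hxne, hx0, rfl⟩, ht4.trans hh1, ?_⟩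
  have h5 := mul_le_mul_of_nonneg_left hh2 hD.le
  linarith

/-- the affine part of projective space -/
lemma open_affine (n : ℕ) : IsZariskiOpen {P : PSpace n | P.rep 0 ≠ 0} ∧
    {P : PSpace n | P.rep 0 ≠ 0}.Nonempty := by
  constructor
  · refine ⟨{MvPolynomial.X 0}, ?_, ?_⟩
    · rintro F rfl
      exact ⟨1, MvPolynomial.isHomogeneous_X _ _⟩
    · ext P
      simp
  · have hne : (fun _ => 1 : Fin (n + 1) → Qbar) ≠ 0 := by
      intro h
      have := congrFun h 0
      simp at this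
    refine ⟨Projectivization.mk Qbar _ hne, ?_⟩
    have h1 := (eval_mk (MvPolynomial.isHomogeneous_X Qbar (0 : Fin (n + 1))) _ hne).mpr (by simp)
    simpa using h1

lemma values {n d : ℕ} (hd : 2 ≤ d) (a : ℕ → ℕ) (ha : ∀ j, 1 ≤ j → j ≤ n → 1 ≤ a j ∧ a j ≤ d)
    (hk : ∃ k, 1 ≤ k ∧ k ≤ n ∧ a k = d) :
    ∃ f : RatMap (n + 1) d, f.IsDominant ∧
      f.mu = ((1 / ∏ j ∈ Finset.Icc 1 n, (a j : ℝ) : ℝ) : EReal) ∧
      (∃ C : ℝ, ∀ P : PSpace (n + 1), P.rep 0 ≠ 0 → ∀ hP : f.DefinedAt P,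
        ht P ≤ (∏ j ∈ Finset.Icc 1 n, (a j : ℝ)) * ht (f.value P hP) + C) ∧
      ∀ U : Set (PSpace (n + 1)), IsZariskiOpen U → U.Nonempty →
        ∃ C : ℝ, ∀ B : ℝ, ∃ P ∈ U, ∃ hP : f.DefinedAt P, IsIntegralPoint P ∧ B ≤ ht P ∧
          (∏ j ∈ Finset.Icc 1 n, (a j : ℝ)) * ht (f.value P hP) ≤ ht P + C := by
  obtain ⟨k, hk1, hkn, hk⟩ := hk
  set b : ℕ → ℕ := fun j => if j = 0 then 1 else a j with hb
  have hb1 : ∀ j ≤ n, 1 ≤ b j ∧ b j ≤ d := by
    intro j hj
    simp only [hb]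
    split_ifs with h
    · omega
    · exact ha j (by omega) hj
  have hbk : b k = d := by
    simp only [hb]
    rw [if_neg (by omega), hk]
  have hpr : (pr b n : ℝ) = ∏ j ∈ Finset.Icc 1 n, (a j : ℝ) := by
    rw [pr, Nat.cast_prod]
    refine Finset.prod_congr rfl fun j hj => ?_
    have := (Finset.mem_Icc.mp hj).1
    simp only [hb]
    rw [if_neg (by omega)]
  have hD : (0 : ℝ) < (pr b n : ℝ) := by
    have := pr_pos (a := b) (j := n) fun i hi => (hb1 i hi).1
    exact_mod_cast this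
  have h1 := tri_lower hd hb1 hk1 hkn hbk
  have h2 := tri_sharp hd hb1 hk1 hkn hbk
  obtain ⟨hU, hne⟩ := open_affine (n + 1)
  rw [hpr] at h1 hD
  simp only [hpr] at h2
  refine ⟨triMap hd hb1 hk1 hkn hbk, tri_dominant hd hb1 hk1 hkn hbk, ?_, h1, h2⟩
  apply le_antisymm
  · apply mu_le_of _ hD
    intro U hU hne
    obtain ⟨C, hC⟩ := h2 U hU hne
    refine ⟨C, fun B => ?_⟩
    obtain ⟨P, hPU, hP, -, h3, h4⟩ := hC B
    exact ⟨P, hPU, hP, h3, h4⟩
  · obtain ⟨C, hC⟩ := h1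
    exact le_mu_of _ hU hne hD fun P hP hP' => hC P hP hP'

/-- **The height expansion ratio of the rational maps of degree `d ≥ 2` of projective `N`-space,
`N ≥ 2`.** -/
theorem result (N d : ℕ) (hN : 2 ≤ N) (hd : 2 ≤ d) :
    -- the infimum is `1 / d ^ (N - 1)`, and it is attained
    (muBar N d = ((1 / (d : ℝ) ^ (N - 1) : ℝ) : EReal) ∧
      ∃ f : RatMap N d, f.IsDominant ∧ f.mu = ((1 / (d : ℝ) ^ (N - 1) : ℝ) : EReal)) ∧
    -- a uniform inequality for every dominant map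
    (∀ f : RatMap N d, f.IsDominant → ∃ U : Set (PSpace N), IsZariskiOpen U ∧ U.Nonempty ∧
      ∃ C : ℝ, ∀ P ∈ U, ∀ hP : f.DefinedAt P, ht P ≤ (d : ℝ) ^ (N - 1) * ht (f.value P hP) + C) ∧
    -- the values `1 / (a_1 ⋯ a_{N-1})` are attained
    ∀ a : ℕ → ℕ, (∀ j, 1 ≤ j → j ≤ N - 1 → 1 ≤ a j ∧ a j ≤ d) →
      (∃ k, 1 ≤ k ∧ k ≤ N - 1 ∧ a k = d) →
      ∃ f : RatMap N d, f.IsDominant ∧
        f.mu = ((1 / ∏ j ∈ Finset.Icc 1 (N - 1), (a j : ℝ) : ℝ) : EReal) ∧
        (∃ C : ℝ, ∀ P : PSpace N, P.rep 0 ≠ 0 → ∀ hP : f.DefinedAt P,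
          ht P ≤ (∏ j ∈ Finset.Icc 1 (N - 1), (a j : ℝ)) * ht (f.value P hP) + C) ∧
        ∀ U : Set (PSpace N), IsZariskiOpen U → U.Nonempty →
          ∃ C : ℝ, ∀ B : ℝ, ∃ P ∈ U, ∃ hP : f.DefinedAt P, IsIntegralPoint P ∧ B ≤ ht P ∧
            (∏ j ∈ Finset.Icc 1 (N - 1), (a j : ℝ)) * ht (f.value P hP) ≤ ht P + C := by
  obtain ⟨n, rfl⟩ : ∃ n, N = n + 1 := ⟨N - 1, by omega⟩
  rw [Nat.add_sub_cancel]
  refine ⟨⟨?_, ?_⟩, fun f hf => uniform n (by omega) f hf, fun a ha hk => values hd a ha hk⟩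
  · have := ExactValue.result (n + 1) d hN hd
    rwa [Nat.add_sub_cancel] at this
  · obtain ⟨f, hf, hmu, -⟩ := values (n := n) hd (fun _ => d) (fun j _ _ => ⟨by omega, le_rfl⟩)
      ⟨1, le_rfl, by omega, rfl⟩
    refine ⟨f, hf, ?_⟩
    rw [hmu, Finset.prod_const, Nat.card_Icc, Nat.add_sub_cancel]

end Pool.Agent.Results.MP_3d4caa_nt.ValuesAttained
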